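import Pool.Agent.MP_a59382_lc.G2.Defs

/-! Row INS: the separability hypothesis is not needed. -/

namespace Pool.Agent.I87

open Pool.Agent.MP_a59382_lc Pool.Agent.MP_a59382_lc.H11 Polynomial IsDedekindDomain WithZero
open scoped WithZero

/-- The theorem for a field embedded in a field with a system of places. -/
def EMB_s : Prop := ∀ (p : ℕ) [Fact p.Prime] (F K' : Type) [Field F] [CharP F p] [Field K'] (t : F)
  (f : F →+* K') (ι : Type) (val : ι → Valuation K' ℤᵐ⁰), G2F.Sz p (f t) val →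
    ∀ S : ℕ → Prop, REPred S → ∃ (n : ℕ) (g : MvPolynomial (Fin 1 ⊕ Fin n) F),
      ∀ a : F, (∃ z : Fin n → F, MvPolynomial.eval (Sum.elim ![a] z) g = 0) ↔
        ∃ j, S j ∧ a = t ^ j

/-- Base change to a perfect constant field. -/
def EXT_s : Prop := ∀ (p : ℕ) (k K : Type) [Field k] [Fact p.Prime] [CharP k p]
  [Field K] [Algebra k[X] K] [Algebra (RatFunc k) K]
  [IsScalarTower k[X] (RatFunc k) K] [FunctionField k K] [Algebra.IsSeparable (RatFunc k) K],
  ∃ (K' : Type) (_ : Field K') (f : K →+* K') (ι : Type) (val : ι → Valuation K' ℤᵐ⁰),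
    G2F.Sz p (f (algebraMap k[X] K X)) val

def ALL_s : Prop := ∀ (p : ℕ) (k K : Type) [Field k] [Fact p.Prime] [CharP k p]
  [Field K] [Algebra k[X] K] [Algebra (RatFunc k) K]
  [IsScalarTower k[X] (RatFunc k) K] [FunctionField k K]
  (S : ℕ → Prop), REPred S → ∃ (n : ℕ) (f : MvPolynomial (Fin 1 ⊕ Fin n) K),
    ∀ a : K, (∃ z : Fin n → K, MvPolynomial.eval (Sum.elim ![a] z) f = 0) ↔
      ∃ j, S j ∧ a = algebraMap k[X] K X ^ j

theorem ins_np {K : Type} [Field K] {q : ℕ} {t : K} {ι : Type} {val : ι → Valuation K ℤᵐ⁰}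
    (S : G2F.Sz q t val) (y : K) : t ≠ y ^ q := by
  intro h
  have h2 := S.two_le
  have e : cs q t (Pi.single ⟨1, by omega⟩ 1) = cs q t (Pi.single ⟨0, by omega⟩ y) := by
    rw [cs_single, cs_single]
    simpa using h
  have h3 := cs_add' t (Q := q) (fun x y => by simpa using S.frob 1 x y)
    (Pi.single ⟨1, by omega⟩ 1 - Pi.single ⟨0, by omega⟩ y) (Pi.single ⟨0, by omega⟩ y)
  rw [sub_add_cancel, e, right_eq_add] at h3
  have := congrFun (S.indep q 1 (pow_one q).symm _ h3) ⟨1, by omega⟩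
  simp at this

/-- The field generated by the `p ^ m`-th powers and `t`. -/
theorem ins_field (p m : ℕ) [Fact p.Prime] (K : Type) [Field K] [CharP K p] (t : K) :
    ∃ (F : Subfield K) (D : ℕ), t ∈ F ∧ (∀ x : K, x ^ p ^ m ∈ F) ∧
      ∀ y : K, y ∈ F ↔ ∃ c : Fin D → K, y = ∑ i, c i ^ p ^ m * t ^ (i : ℕ) := by
  have hp : p.Prime := Fact.out
  obtain ⟨E, hE⟩ : ∃ E : Subfield K, ∀ y, y ∈ E ↔ ∃ x, x ^ p ^ m = y :=
    ⟨(iterateFrobenius K p m).fieldRange, fun y => Iff.rfl⟩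
  have hint : IsIntegral E t := IsIntegral.of_pow (pow_pos hp.pos m)
    (isIntegral_algebraMap (x := (⟨t ^ p ^ m, (hE _).2 ⟨t, rfl⟩⟩ : E)))
  have h1 : t ∈ IntermediateField.adjoin E {t} := IntermediateField.mem_adjoin_simple_self E t
  have h2 : ∀ x : K, x ^ p ^ m ∈ IntermediateField.adjoin E {t} := fun x =>
    (IntermediateField.adjoin E {t}).algebraMap_mem ⟨x ^ p ^ m, (hE _).2 ⟨x, rfl⟩⟩
  refine ⟨(IntermediateField.adjoin E {t}).toSubfield,
    (IntermediateField.adjoin.powerBasis hint).dim, h1, h2, fun y => ⟨fun hy => ?_, ?_⟩⟩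
  · have h3 := (IntermediateField.adjoin.powerBasis hint).basis.sum_repr ⟨y, hy⟩
    choose c hc using fun i =>
      (hE _).1 ((IntermediateField.adjoin.powerBasis hint).basis.repr ⟨y, hy⟩ i).2
    refine ⟨c, ?_⟩
    have h4 := congrArg (IntermediateField.adjoin E {t}).val h3
    rw [map_sum] at h4
    refine h4.symm.trans (Finset.sum_congr rfl fun i _ => ?_)
    rw [map_smul, PowerBasis.basis_eq_pow, map_pow, hc]
    rfl
  · rintro ⟨c, rfl⟩
    exact sum_mem fun i _ => mul_mem (h2 _) (pow_mem h1 _)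

theorem ins_row (hE : EMB_s) (hX : EXT_s) : ALL_s := by
  intro p k K _ _ _ _ _ _ _ _ S hre
  have hp : p.Prime := Fact.out
  have : CharP K p := charP_of_injective_algebraMap (algebraMap (RatFunc k) K).injective p
  obtain ⟨m, hm⟩ : ∃ m, ∀ x : K, x ^ p ^ m ∈ separableClosure (RatFunc k) K := by
    refine ⟨IsPurelyInseparable.exponent (separableClosure (RatFunc k) K) K, fun x => ?_⟩
    obtain ⟨y, hy⟩ := IsPurelyInseparable.exponent_def' (separableClosure (RatFunc k) K) p x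
    exact hy ▸ y.2
  obtain ⟨K', _, f, ι, val, hS⟩ := hX p k (separableClosure (RatFunc k) K)
  obtain ⟨F, D, h1, h2, h3⟩ := ins_field p m K (algebraMap k[X] K X)
  have h4 : ∀ y : F, F.subtype y ∈ separableClosure (RatFunc k) K := fun y => by
    obtain ⟨c, hc⟩ := (h3 y).1 y.2
    rw [Subfield.coe_subtype, hc]
    exact sum_mem fun i _ => mul_mem (hm _)
      (pow_mem (algebraMap k[X] (separableClosure (RatFunc k) K) X).2 _)
  have hS' : G2F.Sz p (f.comp (F.subtype.codRestrict _ h4) ⟨_, h1⟩) val := hS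
  obtain ⟨n, g, hg⟩ := hE p F K' ⟨_, h1⟩ _ ι val hS' S hre
  have hA : Aniso K := by
    refine ⟨p ^ m * p, algebraMap k[X] K X, Nat.mul_pos (pow_pos hp.pos m) hp.pos,
      fun x y h => ?_⟩
    have h0 : p ^ m * p ≠ 0 := (Nat.mul_pos (pow_pos hp.pos m) hp.pos).ne'
    by_cases hy : y = 0
    · subst hy
      rw [zero_pow h0, mul_zero, sub_zero] at h
      exact ⟨(pow_eq_zero_iff h0).1 h, rfl⟩
    · refine absurd ?_ (ins_np hS' (f.comp (F.subtype.codRestrict _ h4) ⟨_, h2 (x / y)⟩))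
      rw [← map_pow]
      refine congrArg _ (Subtype.ext ?_)
      change algebraMap k[X] K X = ((x / y) ^ p ^ m) ^ p
      rw [← pow_mul, div_pow, eq_div_iff (pow_ne_zero _ hy)]
      exact (sub_eq_zero.1 h).symm
  have hR : H18.Dio K fun x : K => x ∈ F.subtype.range := by
    have : H18.Dio K fun x : K => ∃ c : Fin D → K,
        x = ∑ i, c i ^ p ^ m * algebraMap k[X] K X ^ (i : ℕ) :=
      .ex (.eq (by fun_prop) (by fun_prop))
    exact this.congr fun x => ⟨fun ⟨y, hy⟩ => (h3 x).1 (hy ▸ y.2), fun h => ⟨⟨x, (h3 x).2 h⟩, rfl⟩⟩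
  have hD : H18.Dio F fun v : Fin 1 → F =>
      ∃ z : Fin n → F, MvPolynomial.eval (Sum.elim ![v 0] z) g = 0 := by
    refine .ex (.eq ((H18.pf_eval g).comp (.pi ?_)) (.const 0))
    rintro (s | s)
    · rw [Subsingleton.elim s 0]
      simp only [Sum.elim_inl, Matrix.cons_val_zero]
      fun_prop
    · simp only [Sum.elim_inr]
      fun_prop
  obtain ⟨n', g', hg'⟩ := H18.Dio.out hA (H18.Dio.up F.subtype F.subtype.injective hR hD)
  refine ⟨n', g', fun a => (hg' ![a]).trans ⟨?_, ?_⟩⟩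
  · rintro ⟨v, hv, h⟩
    obtain ⟨j, hj, e⟩ := (hg _).1 h
    refine ⟨j, hj, ?_⟩
    have := hv 0
    rw [e, map_pow] at this
    exact this
  · rintro ⟨j, hj, rfl⟩
    refine ⟨fun _ => ⟨_, h1⟩ ^ j, fun s => ?_, (hg _).2 ⟨j, hj, rfl⟩⟩
    rw [map_pow, Subsingleton.elim s 0]
    rfl

end Pool.Agent.I87
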