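import Pool.Agent.MP_a59382_lc.I87.INS

/-! Row FG: finitely generated extensions. -/

namespace Pool.Agent.I87

open Polynomial

def FG_s : Prop := ∀ (p : ℕ) (k K : Type) [Field k] [Fact p.Prime] [CharP k p] [Field K]
  [Algebra k K], (⊤ : IntermediateField k K).FG → ∀ t : K, Transcendental k t →
    ∀ S : ℕ → Prop, REPred S → ∃ (n : ℕ) (f : MvPolynomial (Fin 1 ⊕ Fin n) K),
      ∀ a : K, (∃ z : Fin n → K, MvPolynomial.eval (Sum.elim ![a] z) f = 0) ↔
        ∃ j, S j ∧ a = t ^ j

theorem fg_base (k K : Type) [Field k] [Field K] [Algebra k K] (t : K) (ht : Transcendental k t) :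
    ∃ E : IntermediateField k K, Transcendental E t ∧ ∀ R : IntermediateField k K, E ≤ R → t ∈ R →
      Algebra.IsAlgebraic R K := by
  obtain ⟨B, h1, h2⟩ := exists_isTranscendenceBasis_superset (R := k) (s := {t})
    (algebraicIndependent_unique_type_iff.2 ht)
  have h3 : t ∈ B := h1 rfl
  refine ⟨IntermediateField.adjoin k (Subtype.val '' ({⟨t, h3⟩}ᶜ : Set B)),
    IntermediateField.transcendental_adjoin_iff.2
      (h2.1.transcendental_adjoin (i := ⟨t, h3⟩) (by simp)), fun R h4 h5 => ⟨fun y => ?_⟩⟩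
  have h6 : IntermediateField.adjoin k (Set.range ((↑) : B → K)) ≤ R := by
    rw [IntermediateField.adjoin_le_iff]
    rintro _ ⟨b, rfl⟩
    rcases eq_or_ne b ⟨t, h3⟩ with rfl | hb
    · exact h5
    · exact h4 (IntermediateField.subset_adjoin _ _ ⟨b, hb, rfl⟩)
  exact IsAlgebraic.tower_top_of_subalgebra_le (A := (IntermediateField.adjoin k _).toSubalgebra)
    (B := R.toSubalgebra) h6 (h2.isAlgebraic_field.isAlgebraic y)

theorem fg_row (hA : ALL_s) : FG_s := by
  intro p k K _ _ _ _ _ hK t ht S hre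
  obtain ⟨E, h1, h2⟩ := fg_base k K t ht
  have : CharP E p := charP_of_injective_algebraMap (algebraMap k E).injective p
  have hi : Function.Injective (aeval t : E[X] →ₐ[E] K).toRingHom :=
    transcendental_iff_injective.1 h1
  let j : RatFunc E →+* K := IsFractionRing.lift hi
  have hj : ∀ g : E[X], j (algebraMap E[X] (RatFunc E) g) = aeval t g := fun g =>
    IsFractionRing.lift_algebraMap hi g
  let _ : Algebra E[X] K := (aeval t : E[X] →ₐ[E] K).toRingHom.toAlgebra
  let _ : Algebra (RatFunc E) K := j.toAlgebra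
  have : IsScalarTower E[X] (RatFunc E) K := .of_algebraMap_eq fun g => (hj g).symm
  have hc : ∀ e : E, (e : K) ∈ j.fieldRange := fun e =>
    ⟨algebraMap E[X] (RatFunc E) (C e), (hj _).trans (aeval_C t e)⟩
  let R : IntermediateField k K := j.fieldRange.toIntermediateField fun c => hc (algebraMap k E c)
  have := h2 R (fun y hy => hc ⟨y, hy⟩) ⟨algebraMap E[X] (RatFunc E) X, (hj _).trans (aeval_X t)⟩
  have : Algebra.EssFiniteType k K := IntermediateField.fg_top_iff.1 hK
  have : Algebra.EssFiniteType R K := .of_comp k R K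
  have : Module.Finite R K := Algebra.finite_of_essFiniteType_of_isAlgebraic
  have : FunctionField E K :=
    Module.Finite.of_equiv_equiv (A₁ := R) (B₁ := K) j.rangeRestrictFieldEquiv.symm
      (RingEquiv.refl K) (RingHom.ext fun y => j.rangeRestrictFieldEquiv_apply_symm_apply y)
  obtain ⟨n, f, hf⟩ := hA p E K S hre
  refine ⟨n, f, fun a => (hf a).trans ?_⟩
  rw [show algebraMap E[X] K X = t from aeval_X t]

end Pool.Agent.I87
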